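import Pool.Agent.W850.Ord.LowDens

/-!
# Motives generated by motives with multiplications: definitions

`K` is a number field. A motive over `K` enters only through its Frobenius eigenvalues at the places of
`K` of degree one and through its Hodge slopes: the integers `p`, with multiplicity `h^{p, w - p}`.
-/

set_option autoImplicit false

namespace Pool.Agent.K3h30.OC

open NumberField IsDedekindDomain Polynomial
open Pool.Agent.W401.Cheb Pool.Agent.W528.Ord Pool.Agent.R915.Ord
open MultSystem (IsDeg1 IsOver)

/-- The Frobenius eigenvalues `eig v` and the Hodge slopes of a motive over `K`. -/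
structure Obj (K : Type) [Field K] [NumberField K] where
  eig : HeightOneSpectrum (𝓞 K) → Multiset (AlgebraicClosure K)
  slopes : Multiset ℕ

namespace Obj

variable {K : Type} [Field K] [NumberField K]

/-- the residue characteristic of a place of degree one, as an element of the algebraic closure -/
noncomputable def res (v : HeightOneSpectrum (𝓞 K)) : AlgebraicClosure K :=
  ((Ideal.absNorm v.asIdeal : ℕ) : AlgebraicClosure K)

/-- the unit object -/
noncomputable def unit : Obj K := ⟨fun _ => {1}, {0}⟩

/-- the direct sum -/
noncomputable def sum (U V : Obj K) : Obj K := ⟨fun v => U.eig v + V.eig v, U.slopes + V.slopes⟩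

/-- the tensor product -/
noncomputable def tensor (U V : Obj K) : Obj K :=
  ⟨fun v => (U.eig v ×ˢ V.eig v).map fun y => y.1 * y.2,
    (U.slopes ×ˢ V.slopes).map fun y => y.1 + y.2⟩

/-- the Tate twist `U (-j)` -/
noncomputable def twist (U : Obj K) (j : ℕ) : Obj K :=
  ⟨fun v => (U.eig v).map fun x => res v ^ j * x, U.slopes.map fun a => j + a⟩

/-- the twist `U^∨ (-w)` of the dual, if no Hodge slope is larger than `w` -/
noncomputable def dual (U : Obj K) (w : ℕ) : Obj K :=
  ⟨fun v => (U.eig v).map fun x => res v ^ w * x⁻¹, U.slopes.map fun a => w - a⟩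

/-- The Hodge slopes of `U` and `V`, and the Frobenius eigenvalues at the places of degree one outside
`T`, are the same. -/
def Iso (T : Finset ℕ) (U V : Obj K) : Prop :=
  U.slopes = V.slopes ∧ ∀ v : HeightOneSpectrum (𝓞 K), IsDeg1 T v → U.eig v = V.eig v

/-- Mazur's inequality: at the places of degree one outside `T` the Newton polygon of the polynomial
with the roots `eig v` lies on or above the Hodge polygon. -/
def Mazur (T : Finset ℕ) (U : Obj K) : Prop :=
  ∀ v : HeightOneSpectrum (𝓞 K), IsDeg1 T v → ∀ Q : Ideal (𝓞 (AlgebraicClosure K)), IsOver Q v →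
    ∃ P : Polynomial (𝓞 (AlgebraicClosure K)), rts P = U.eig v ∧
      LiesAbove Q (Ideal.absNorm v.asIdeal) P U.slopes

/-- the `σ`-part of the motive `A` with multiplication by the field `A.E` -/
noncomputable def piece {ℓ : ℕ} [Fact ℓ.Prime] (A : MotSystem K ℓ)
    (σ : A.E →+* AlgebraicClosure K) : Obj K :=
  ⟨fun v => (A.poly v σ).roots, (A.h σ : Multiset ℕ)⟩

end Obj

/-- The class of motives generated by the motives `A i` with multiplications: the smallest class which
contains the pieces of the `A i` and is closed under direct sums, tensor products, duals, Tate twists,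
direct summands and **tensor factors** of nonzero objects. `T` is a finite set of bad residue
characteristics. -/
inductive Generated {K : Type} [Field K] [NumberField K] {ℓ : ℕ} [Fact ℓ.Prime] {ι : Type}
    (A : ι → MotSystem K ℓ) (T : Finset ℕ) : Obj K → Prop
  | piece (i : ι) (σ : (A i).E →+* AlgebraicClosure K) : Generated A T (Obj.piece (A i) σ)
  | unit : Generated A T Obj.unit
  | iso (U V : Obj K) (h : U.Iso T V) (hV : Generated A T V) : Generated A T U
  | sum (U V : Obj K) (hU : Generated A T U) (hV : Generated A T V) : Generated A T (U.sum V)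
  | tensor (U V : Obj K) (hU : Generated A T U) (hV : Generated A T V) : Generated A T (U.tensor V)
  | twist (U : Obj K) (j : ℕ) (hU : Generated A T U) : Generated A T (U.twist j)
  | untwist (U : Obj K) (j : ℕ) (hU : Generated A T (U.twist j)) : Generated A T U
  | dual (U : Obj K) (w : ℕ) (hw : ∀ a ∈ U.slopes, a ≤ w) (hU : Generated A T U) :
      Generated A T (U.dual w)
  | summand (U U' : Obj K) (hU : U.Mazur T) (hU' : U'.Mazur T) (h : Generated A T (U.sum U')) :
      Generated A T U
  | factor (U U' : Obj K) (hU : U.Mazur T) (hU' : U'.Mazur T) (h0 : U'.slopes ≠ 0)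
      (h : Generated A T (U.tensor U')) : Generated A T U

/-- The compatible system with the Frobenius polynomials `F` (at the places of `K₀`) and the Hodge
slopes `H` becomes, over the finite extension `K` of `K₀`, a member of the class generated by the
`A i`. -/
def IsGenerated {K₀ K : Type} [Field K₀] [NumberField K₀] [Field K] [NumberField K] [Algebra K₀ K]
    {ℓ : ℕ} [Fact ℓ.Prime] {ι : Type} (A : ι → MotSystem K ℓ) (T : Finset ℕ)
    (F : HeightOneSpectrum (𝓞 K₀) → ℤ[X]) (H : Multiset ℕ) : Prop :=
  ∃ U : Obj K, Generated A T U ∧ U.slopes = H ∧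
    ∀ (v₀ : HeightOneSpectrum (𝓞 K₀)) (v : HeightOneSpectrum (𝓞 K)),
      v.asIdeal.comap (algebraMap (𝓞 K₀) (𝓞 K)) = v₀.asIdeal → IsDeg1 T v →
      U.eig v = ((F v₀).map (Int.castRingHom (AlgebraicClosure K))).roots

end Pool.Agent.K3h30.OC
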