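import Pool.Agent.W850.Ord.LowDens

/-! A tensor factor of an ordinary object is ordinary: convexity of Newton polygons. -/

set_option autoImplicit false
set_option linter.all false

namespace Pool.Agent.K3h30.OC

open Pool.Agent.W528.Ord Pool.Agent.R915.Ord

/-- the product of the `max r x` -/
noncomputable def gn (r : ℝ) (N : Multiset ℝ) : ℝ := (N.map fun x => max r x).prod

theorem gn_pos {r : ℝ} (hr : 0 < r) (N : Multiset ℝ) : 0 < gn r N := prod_max_pos r hr N

theorem gn_scale {c r : ℝ} (hc : 0 < c) (N : Multiset ℝ) :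
    gn r (N.map fun x => c * x) = c ^ (Multiset.card N) * gn (r / c) N := prod_max_scale c r hc N

theorem gn_add (r : ℝ) (M N : Multiset ℝ) : gn r (M + N) = gn r M * gn r N := by
  unfold gn
  rw [Multiset.map_add, Multiset.prod_add]

/-- the multiset of the products -/
def mulM (N N' : Multiset ℝ) : Multiset ℝ := (N ×ˢ N').map fun y => y.1 * y.2

theorem mulM_cons (N : Multiset ℝ) (c : ℝ) (N' : Multiset ℝ) :
    mulM N (c ::ₘ N') = (N.map fun x => c * x) + mulM N N' := by
  unfold mulM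
  rw [Multiset.product_cons, Multiset.map_add, Multiset.map_map]
  congr 1
  apply Multiset.map_congr rfl
  intro x _
  simp [mul_comm]

theorem mulM_comm (N N' : Multiset ℝ) : mulM N N' = mulM N' N := by
  induction N' using Multiset.induction_on with
  | empty => simp [mulM]
  | cons c N' ih =>
    rw [mulM_cons, ih]
    unfold mulM
    rw [Multiset.cons_product, Multiset.map_add, Multiset.map_map]
    rfl

theorem gn_mulM_le {N M N' : Multiset ℝ} (hc : Multiset.card N = Multiset.card M)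
    (hN' : ∀ x ∈ N', 0 < x) (h : ∀ r, 0 < r → gn r N ≤ gn r M) (r : ℝ) (hr : 0 < r) :
    gn r (mulM N N') ≤ gn r (mulM M N') := by
  induction N' using Multiset.induction_on with
  | empty => simp [mulM]
  | cons c N' ih =>
    have hc0 : 0 < c := hN' c (Multiset.mem_cons_self _ _)
    rw [mulM_cons, mulM_cons, gn_add, gn_add, gn_scale hc0, gn_scale hc0, hc]
    apply mul_le_mul _ (ih fun x hx => hN' x (Multiset.mem_cons_of_mem hx)) (gn_pos hr _).le
    · exact mul_nonneg (pow_nonneg hc0.le _) (gn_pos (div_pos hr hc0) _).le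
    · exact mul_le_mul_of_nonneg_left (h _ (div_pos hr hc0)) (pow_nonneg hc0.le _)

/-- the key lemma -/
theorem factor_eq {N N' M M' : Multiset ℝ} (hc : Multiset.card N = Multiset.card M)
    (hc' : Multiset.card N' = Multiset.card M')
    (h1 : ∀ r, 0 < r → gn r N ≤ gn r M) (h2 : ∀ r, 0 < r → gn r N' ≤ gn r M')
    (hN : ∀ x ∈ N, 0 ≤ x) (hN' : ∀ x ∈ N', 0 ≤ x) (hM : ∀ x ∈ M, 0 < x) (hM' : ∀ x ∈ M', 0 < x)
    (h0 : N' ≠ 0) (he : mulM N N' = mulM M M') : N = M := by
  classical
  by_cases hN0 : N = 0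
  · subst hN0
    rw [Multiset.card_zero] at hc
    exact (Multiset.card_eq_zero.1 hc.symm).symm
  obtain ⟨x₀, hx₀⟩ := Multiset.exists_mem_of_ne_zero hN0
  obtain ⟨c₀, hc₀⟩ := Multiset.exists_mem_of_ne_zero h0
  have hpos : ∀ x ∈ N, ∀ c ∈ N', 0 < x * c := by
    intro x hx c hc
    have h3 : x * c ∈ mulM N N' := Multiset.mem_map.2 ⟨(x, c), Multiset.mem_product.2 ⟨hx, hc⟩, rfl⟩
    rw [he] at h3
    obtain ⟨⟨a, b⟩, h4, h5⟩ := Multiset.mem_map.1 h3
    obtain ⟨h6, h7⟩ := Multiset.mem_product.1 h4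
    rw [← h5]
    exact mul_pos (hM _ h6) (hM' _ h7)
  have hNp : ∀ x ∈ N, 0 < x := by
    intro x hx
    rcases (hN x hx).eq_or_lt with h | h
    · have := hpos x hx c₀ hc₀
      rw [← h, zero_mul] at this
      exact absurd this (lt_irrefl _)
    · exact h
  have hNp' : ∀ x ∈ N', 0 < x := by
    intro x hx
    rcases (hN' x hx).eq_or_lt with h | h
    · have := hpos x₀ hx₀ x hx
      rw [← h, mul_zero] at this
      exact absurd this (lt_irrefl _)
    · exact h
  have hT : ∀ r, 0 < r → gn r (mulM N N') = gn r (mulM M N') := by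
    intro r hr
    apply le_antisymm (gn_mulM_le hc hNp' h1 r hr)
    rw [he, mulM_comm M N', mulM_comm M M']
    exact gn_mulM_le hc' hM h2 r hr
  have key : ∀ r, 0 < r → gn r N = gn r M := by
    intro r hr
    by_contra hne
    have hlt : gn r N < gn r M := lt_of_le_of_ne (h1 r hr) hne
    obtain ⟨N'', rfl⟩ := Multiset.exists_cons_of_mem hc₀
    have hc0 : 0 < c₀ := hNp' c₀ hc₀
    have h3 := hT (r * c₀) (mul_pos hr hc0)
    rw [mulM_cons, mulM_cons, gn_add, gn_add, gn_scale hc0, gn_scale hc0, hc,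
      mul_div_cancel_right₀ _ hc0.ne'] at h3
    have h4 := gn_mulM_le hc (N' := N'') (fun x hx => hNp' x (Multiset.mem_cons_of_mem hx)) h1 (r * c₀)
      (mul_pos hr hc0)
    have h5 := gn_pos (mul_pos hr hc0) (mulM N N'')
    have h6 : 0 < c₀ ^ Multiset.card M := pow_pos hc0 _
    have h7 : c₀ ^ Multiset.card M * gn r N < c₀ ^ Multiset.card M * gn r M :=
      mul_lt_mul_of_pos_left hlt h6
    have h8 : c₀ ^ Multiset.card M * gn r N * gn (r * c₀) (mulM N N'') <
        c₀ ^ Multiset.card M * gn r M * gn (r * c₀) (mulM M N'') :=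
      lt_of_lt_of_le (mul_lt_mul_of_pos_right h7 h5)
        (mul_le_mul_of_nonneg_left h4 (mul_pos h6 (gn_pos hr _)).le)
    exact absurd h3 h8.ne
  obtain ⟨r1, hr1, h3⟩ := exists_lower _ hNp
  obtain ⟨r2, hr2, h4⟩ := exists_lower _ hM
  refine Pool.Agent.W518.DN.eq_of_prod_max (min r1 r2) (lt_min hr1 hr2) (Multiset.card N) _ _ rfl
    hc.symm (fun x hx => (min_le_left _ _).trans (h3 x hx))
    (fun x hx => (min_le_right _ _).trans (h4 x hx)) ?_
  intro r hr
  exact key r (lt_of_lt_of_le (lt_min hr1 hr2) hr)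

end Pool.Agent.K3h30.OC
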