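import Pool.Agent.K3h30.OC.Defs
import Pool.Agent.K3h30.OC.Factor

/-! The generated motives are ordinary at the places where the pieces are ordinary. -/

set_option autoImplicit false
set_option linter.all false

namespace Pool.Agent.K3h30.OC

open NumberField IsDedekindDomain Polynomial Filter Topology
open Pool.Agent.W401.Cheb Pool.Agent.W528.Ord Pool.Agent.R915.Ord Pool.Agent.W850.Ord
open MultSystem (IsDeg1 IsOver norm_mem)

section norms

variable {K : Type} [Field K] [NumberField K] {p : ℕ} [Fact p.Prime]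

/-- the absolute values of the Frobenius eigenvalues are given by the Hodge slopes -/
def OrdAt (τ : AlgebraicClosure K →+* PadicAlgCl p) (v : HeightOneSpectrum (𝓞 K)) (U : Obj K) : Prop :=
  (U.eig v).map (fun x => ‖τ x‖) = U.slopes.map fun a => (1 / (p : ℝ)) ^ a

variable {τ : AlgebraicClosure K →+* PadicAlgCl p} {v : HeightOneSpectrum (𝓞 K)}
  (hpe : Ideal.absNorm v.asIdeal = p)

include hpe in
theorem norm_res : ‖τ (Obj.res v)‖ = 1 / (p : ℝ) := by
  unfold Obj.res
  rw [hpe, map_natCast, norm_p]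

theorem ord_sum {U V : Obj K} (hU : OrdAt τ v U) (hV : OrdAt τ v V) : OrdAt τ v (U.sum V) := by
  unfold OrdAt Obj.sum
  simp only [Multiset.map_add]
  rw [hU, hV]

theorem norm_tensor (U V : Obj K) : ((U.tensor V).eig v).map (fun x => ‖τ x‖) =
    mulM ((U.eig v).map fun x => ‖τ x‖) ((V.eig v).map fun x => ‖τ x‖) := by
  unfold Obj.tensor mulM
  rw [← map_product, Multiset.map_map, Multiset.map_map]
  congr 1
  funext y
  simp [map_mul, norm_mul]

theorem slopes_tensor (U V : Obj K) (q : ℝ) : ((U.tensor V).slopes).map (fun a => q ^ a) =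
    mulM (U.slopes.map fun a => q ^ a) (V.slopes.map fun a => q ^ a) := by
  unfold Obj.tensor mulM
  rw [← map_product (fun a : ℕ => q ^ a) (fun a : ℕ => q ^ a), Multiset.map_map, Multiset.map_map]
  congr 1
  funext y
  simp [pow_add]

theorem ord_tensor {U V : Obj K} (hU : OrdAt τ v U) (hV : OrdAt τ v V) : OrdAt τ v (U.tensor V) := by
  unfold OrdAt
  rw [norm_tensor, slopes_tensor, hU, hV]

include hpe in
theorem norm_twist (U : Obj K) (j : ℕ) : ((U.twist j).eig v).map (fun x => ‖τ x‖) =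
    ((U.eig v).map fun x => ‖τ x‖).map fun t => (1 / (p : ℝ)) ^ j * t := by
  unfold Obj.twist
  simp only [Multiset.map_map]
  congr 1
  funext y
  simp only [Function.comp, map_mul, map_pow, norm_mul, norm_pow, norm_res hpe]

theorem slopes_twist (U : Obj K) (j : ℕ) (q : ℝ) : ((U.twist j).slopes).map (fun a => q ^ a) =
    (U.slopes.map fun a => q ^ a).map fun t => q ^ j * t := by
  unfold Obj.twist
  simp only [Multiset.map_map]
  congr 1
  funext y
  simp only [Function.comp, pow_add]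

include hpe in
theorem ord_twist {U : Obj K} (j : ℕ) (hU : OrdAt τ v U) : OrdAt τ v (U.twist j) := by
  unfold OrdAt
  rw [norm_twist hpe, slopes_twist, hU]

include hpe in
theorem ord_untwist {U : Obj K} (j : ℕ) (hU : OrdAt τ v (U.twist j)) : OrdAt τ v U := by
  unfold OrdAt at hU
  rw [norm_twist hpe, slopes_twist] at hU
  have hp0 : (0 : ℝ) < p := by exact_mod_cast (Fact.out : p.Prime).pos
  refine Multiset.map_injective (fun a b h => ?_) hU
  exact mul_left_cancel₀ (pow_pos (by positivity : (0 : ℝ) < 1 / (p : ℝ)) j).ne' h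

include hpe in
theorem ord_dual {U : Obj K} (w : ℕ) (hw : ∀ a ∈ U.slopes, a ≤ w) (hU : OrdAt τ v U) :
    OrdAt τ v (U.dual w) := by
  have hp0 : (0 : ℝ) < p := by exact_mod_cast (Fact.out : p.Prime).pos
  have hq : (0 : ℝ) < 1 / (p : ℝ) := by positivity
  unfold OrdAt Obj.dual
  have e1 : (((U.eig v).map fun x => Obj.res v ^ w * x⁻¹).map fun x => ‖τ x‖) =
      ((U.eig v).map fun x => ‖τ x‖).map fun t => (1 / (p : ℝ)) ^ w * t⁻¹ := by
    simp only [Multiset.map_map]
    congr 1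
    funext y
    simp only [Function.comp, map_mul, map_pow, norm_mul, norm_pow, norm_res hpe, map_inv₀, norm_inv]
  simp only
  rw [e1, hU, Multiset.map_map, Multiset.map_map]
  apply Multiset.map_congr rfl
  intro a ha
  simp only [Function.comp]
  rw [pow_sub₀ _ hq.ne' (hw a ha)]

theorem norm_nonneg_mem {M : Multiset (AlgebraicClosure K)} {x : ℝ}
    (hx : x ∈ M.map fun y => ‖τ y‖) : 0 ≤ x := by
  obtain ⟨y, -, rfl⟩ := Multiset.mem_map.1 hx
  exact norm_nonneg _

theorem pow_pos_mem {H : Multiset ℕ} {x : ℝ} (hx : x ∈ H.map fun a => (1 / (p : ℝ)) ^ a) : 0 < x := by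
  obtain ⟨y, -, rfl⟩ := Multiset.mem_map.1 hx
  have hp0 : (0 : ℝ) < p := by exact_mod_cast (Fact.out : p.Prime).pos
  positivity

variable {Q : Ideal (𝓞 (AlgebraicClosure K))} (hQ : IsOver Q v)
  (hτ : ∀ x : 𝓞 (AlgebraicClosure K), x ∈ Q ↔ ‖τ (x : AlgebraicClosure K)‖ < 1)
  {T : Finset ℕ} (hv : IsDeg1 T v)

include hpe hQ hτ hv in
theorem mazur_gauss {U : Obj K} (hU : U.Mazur T) :
    Multiset.card ((U.eig v).map fun x => ‖τ x‖) =
      Multiset.card (U.slopes.map fun a => (1 / (p : ℝ)) ^ a) ∧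
    ∀ r, 0 < r → gn r ((U.eig v).map fun x => ‖τ x‖) ≤ gn r (U.slopes.map fun a => (1 / (p : ℝ)) ^ a) := by
  obtain ⟨P, hP, hab⟩ := hU v hv Q hQ
  rw [hpe] at hab
  refine ⟨?_, fun r hr => ?_⟩
  · rw [Multiset.card_map, Multiset.card_map, ← hP]
    unfold rts
    rw [splits_iff_card_roots.mp (IsAlgClosed.splits _), hab.1.natDegree_map, hab.2.1]
  · have h := above_gauss hτ hab r hr
    rw [hP] at h
    unfold gn
    rw [Multiset.map_map] at h ⊢
    rw [Multiset.map_map]
    exact h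

include hpe hQ hτ hv in
theorem ord_summand {U U' : Obj K} (hU : U.Mazur T) (hU' : U'.Mazur T) (h : OrdAt τ v (U.sum U')) :
    OrdAt τ v U := by
  have hp0 : (0 : ℝ) < p := by exact_mod_cast (Fact.out : p.Prime).pos
  obtain ⟨h1, h2⟩ := mazur_gauss hpe hQ hτ hv hU
  obtain ⟨h3, h4⟩ := mazur_gauss hpe hQ hτ hv hU'
  refine multiset_eq (1 / (p : ℝ)) 1 (by positivity) one_pos ((U.eig v).map fun x => ‖τ x‖)
    ((U'.eig v).map fun x => ‖τ x‖) U.slopes U'.slopes (by rw [h1, Multiset.card_map]) ?_ ?_ ?_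
  · intro r hr
    have := h2 r hr
    unfold gn at this
    rw [Multiset.map_map (g := fun x => max r x) (f := fun a : ℕ => (1 / (p : ℝ)) ^ a)] at this
    exact this
  · intro r hr
    have := h4 r hr
    unfold gn at this
    rw [Multiset.map_map (g := fun x => max r x) (f := fun a : ℕ => (1 / (p : ℝ)) ^ a)] at this
    exact this
  · unfold OrdAt Obj.sum at h
    simp only [Multiset.map_add] at h
    simp only [one_mul, Multiset.map_id']
    exact h

include hpe hQ hτ hv in
theorem ord_factor {U U' : Obj K} (hU : U.Mazur T) (hU' : U'.Mazur T) (h0 : U'.slopes ≠ 0)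
    (h : OrdAt τ v (U.tensor U')) : OrdAt τ v U := by
  obtain ⟨h1, h2⟩ := mazur_gauss hpe hQ hτ hv hU
  obtain ⟨h3, h4⟩ := mazur_gauss hpe hQ hτ hv hU'
  unfold OrdAt at h
  rw [norm_tensor, slopes_tensor] at h
  refine factor_eq h1 h3 h2 h4 (fun x hx => norm_nonneg_mem hx) (fun x hx => norm_nonneg_mem hx)
    (fun x hx => pow_pos_mem hx) (fun x hx => pow_pos_mem hx) ?_ h
  intro hz
  apply h0
  rw [hz, Multiset.card_zero, Multiset.card_map] at h3
  exact Multiset.card_eq_zero.1 h3.symm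

end norms

section generated

variable {K : Type} [Field K] [NumberField K] {ℓ : ℕ} [Fact ℓ.Prime] {ι : Type} [Fintype ι]
  (A : ι → MotSystem K ℓ) (χ : GK K →* (PadicAlgCl ℓ)ˣ)
  (S : ι → Finset ℕ) (hA : ∀ i, (A i).IsMotive χ (S i))

include hA in
/-- **the generated objects are ordinary at the places where all the pieces are ordinary** -/
theorem ord_generated {v : HeightOneSpectrum (𝓞 K)} (hv : (Ideal.absNorm v.asIdeal).Prime)
    (hvS : ∀ i, Ideal.absNorm v.asIdeal ∉ S i) {T : Finset ℕ} (hvT : Ideal.absNorm v.asIdeal ∉ T)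
    {Q : Ideal (𝓞 (AlgebraicClosure K))} (hQ : IsOver Q v) {p : ℕ} [Fact p.Prime]
    (hpe : Ideal.absNorm v.asIdeal = p) {τ : AlgebraicClosure K →+* PadicAlgCl p}
    (hτ : ∀ x : 𝓞 (AlgebraicClosure K), x ∈ Q ↔ ‖τ (x : AlgebraicClosure K)‖ < 1)
    (hno : NoExcess A v Q) {U : Obj K} (hU : Generated A T U) : OrdAt τ v U := by
  have hd : IsDeg1 T v := ⟨hv, hvT⟩
  induction hU with
  | piece i σ =>
    have h1 := MotSystem.roots_part (hA i) ⟨hv, hvS i⟩ hQ hpe hτ σ (fun k hk => hno i σ k hk)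
    unfold OrdAt Obj.piece
    simp only
    rw [← h1]
    have e : (A i).poly v (τ.comp σ) = ((A i).poly v σ).map τ := by
      unfold MotSystem.poly
      rw [Polynomial.map_map]
      rfl
    rw [e, Splits.roots_map (IsAlgClosed.splits _), Multiset.map_map]
    rfl
  | unit => simp [OrdAt, Obj.unit]
  | iso U V h hV ih =>
    unfold OrdAt
    rw [h.1, h.2 v hd]
    exact ih
  | sum U V hU hV ih1 ih2 => exact ord_sum ih1 ih2
  | tensor U V hU hV ih1 ih2 => exact ord_tensor ih1 ih2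
  | twist U j hU ih => exact ord_twist hpe j ih
  | untwist U j hU ih => exact ord_untwist hpe j ih
  | dual U w hw hU ih => exact ord_dual hpe w hw ih
  | summand U U' hU hU' h ih => exact ord_summand hpe hQ hτ hd hU hU' ih
  | factor U U' hU hU' h0 h ih => exact ord_factor hpe hQ hτ hd hU hU' h0 ih

end generated

section down

variable {K₀ K : Type} [Field K₀] [NumberField K₀] [Field K] [NumberField K] [Algebra K₀ K]
    {ℓ : ℕ} [Fact ℓ.Prime] {ι : Type} [Fintype ι] (A : ι → MotSystem K ℓ)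
    (χ : GK K →* (PadicAlgCl ℓ)ˣ) (S : ι → Finset ℕ) (hA : ∀ i, (A i).IsMotive χ (S i))

include hA in
theorem newton_of_below {T : Finset ℕ} {F : HeightOneSpectrum (𝓞 K₀) → ℤ[X]} {H : Multiset ℕ}
    (hF : IsGenerated A T F H) (v₀ : HeightOneSpectrum (𝓞 K₀)) (hb : Below K₀ A S v₀)
    (hT : Ideal.absNorm v₀.asIdeal ∉ T) : NewtonSlopes (Ideal.absNorm v₀.asIdeal) (F v₀) H := by
  obtain ⟨v, h0, hv, hvS, Q, hQ, hno⟩ := hb
  obtain ⟨U, hU, hH, hE⟩ := hF
  have hnn := under_norm v hv v₀ h0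
  rw [hnn] at hT ⊢
  obtain ⟨p, hpe⟩ : ∃ p, Ideal.absNorm v.asIdeal = p := ⟨_, rfl⟩
  have hpp : p.Prime := hpe ▸ hv
  haveI : Fact p.Prime := ⟨hpp⟩
  have hpQ := norm_mem hv hQ.2
  rw [hpe] at hpQ
  obtain ⟨τ, hτ⟩ := exists_tau (p := p) Q hQ.1 hpQ
  have key := ord_generated A χ S hA hv hvS hT hQ hpe hτ hno hU
  rw [hpe]
  refine ⟨inferInstance, ?_⟩
  unfold OrdAt at key
  rw [hH, hE v₀ v h0 ⟨hv, hT⟩] at key
  rw [← key]
  have e : (F v₀).map (Int.castRingHom (PadicAlgCl p)) =
      ((F v₀).map (Int.castRingHom (AlgebraicClosure K))).map τ := by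
    rw [Polynomial.map_map]
    congr 1
    exact RingHom.ext_int _ _
  rw [e, Splits.roots_map (IsAlgClosed.splits _), Multiset.map_map]
  rfl

end down

end Pool.Agent.K3h30.OC
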