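import Pool.Agent.K3h30.OC.Defs

/-!
# Newton polygons of `ℓ`-adic representations with coefficients in `ℚ̄_ℓ`: definitions
-/

set_option autoImplicit false

namespace Pool.Agent.K3h30.OC

open NumberField IsDedekindDomain Polynomial
open Pool.Agent.W401.Cheb Pool.Agent.W528.Ord Pool.Agent.R915.Ord

/-- The roots of the polynomial `f` over `ℚ̄_ℓ` are algebraic numbers, and their absolute values under
the embedding `τ` of the field of algebraic numbers in `ℚ̄_ℓ` into `ℚ̄_p` are `p ^ (-a)`, with `a` in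
`H`, with multiplicity: the Newton polygon for `τ` is the polygon with the slopes `H`. -/
def HasSlopes {ℓ p : ℕ} [Fact ℓ.Prime] [Fact p.Prime] (f : Polynomial (PadicAlgCl ℓ))
    (τ : algebraicClosure ℚ (PadicAlgCl ℓ) →+* PadicAlgCl p) (H : Multiset ℕ) : Prop :=
  ∃ e : Multiset (algebraicClosure ℚ (PadicAlgCl ℓ)),
    e.map (algebraMap _ (PadicAlgCl ℓ)) = f.roots ∧
    (e.map fun y => ‖τ y‖) = H.map fun a => (1 / (p : ℝ)) ^ a

/-- The roots of the polynomial `f` over `ℚ̄_ℓ` are algebraic numbers, and their Newton polygon for the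
embedding `τ` lies on or above the polygon with the slopes `H`: the absolute value of the product of
any `k` of them is at most `p ^ (-a)`, where `a` is the sum of the `k` smallest elements of `H`. -/
def LiesAboveTau {ℓ p : ℕ} [Fact ℓ.Prime] [Fact p.Prime] (f : Polynomial (PadicAlgCl ℓ))
    (τ : algebraicClosure ℚ (PadicAlgCl ℓ) →+* PadicAlgCl p) (H : Multiset ℕ) : Prop :=
  ∃ e : Multiset (algebraicClosure ℚ (PadicAlgCl ℓ)),
    e.map (algebraMap _ (PadicAlgCl ℓ)) = f.roots ∧ Multiset.card e = Multiset.card H ∧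
    ∀ s ≤ e, (s.map fun y => ‖τ y‖).prod ≤ (1 / (p : ℝ)) ^ polygon H (Multiset.card s)

/-- the characteristic polynomial of `g ∈ GL_r (ℚ_ℓ)` over `ℚ̄_ℓ` -/
noncomputable def cpQ {ℓ : ℕ} [Fact ℓ.Prime] {r : ℕ} (g : Matrix.GeneralLinearGroup (Fin r) ℚ_[ℓ]) :
    Polynomial (PadicAlgCl ℓ) :=
  (g : Matrix (Fin r) (Fin r) ℚ_[ℓ]).charpoly.map (algebraMap ℚ_[ℓ] (PadicAlgCl ℓ))

/-- the characteristic polynomial of `g ∈ GL_r (ℚ̄_ℓ)` -/
noncomputable def cp {ℓ : ℕ} [Fact ℓ.Prime] {r : ℕ}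
    (g : Matrix.GeneralLinearGroup (Fin r) (PadicAlgCl ℓ)) : Polynomial (PadicAlgCl ℓ) :=
  (g : Matrix (Fin r) (Fin r) (PadicAlgCl ℓ)).charpoly

/-- The representation `M` over `ℚ_ℓ` becomes over `ℚ̄_ℓ` the direct sum of `R` and `R'`, up to
semisimplification. -/
def IsSumOf {K₀ : Type} [Field K₀] {ℓ : ℕ} [Fact ℓ.Prime] {r r₁ r₂ : ℕ}
    (M : GK K₀ →* Matrix.GeneralLinearGroup (Fin r) ℚ_[ℓ])
    (R : GK K₀ →* Matrix.GeneralLinearGroup (Fin r₁) (PadicAlgCl ℓ))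
    (R' : GK K₀ →* Matrix.GeneralLinearGroup (Fin r₂) (PadicAlgCl ℓ)) : Prop :=
  ∀ γ : GK K₀, cpQ (M γ) = cp (R γ) * cp (R' γ)

/-- The realisations `M ℓ'` are strictly compatible: at the places of degree one outside `T` the
characteristic polynomial of the geometric Frobenius element (the inverse of `γ`) is `F v`. -/
def StrictlyCompatible {K₀ : Type} [Field K₀] [NumberField K₀] (T : Finset ℕ) {r : ℕ}
    (M : ∀ (ℓ' : ℕ) [Fact ℓ'.Prime], GK K₀ →* Matrix.GeneralLinearGroup (Fin r) ℚ_[ℓ'])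
    (F : HeightOneSpectrum (𝓞 K₀) → Polynomial ℤ) : Prop :=
  ∀ (ℓ' : ℕ) [Fact ℓ'.Prime] (v₀ : HeightOneSpectrum (𝓞 K₀)), MultSystem.IsDeg1 T v₀ →
    Ideal.absNorm v₀.asIdeal ≠ ℓ' → ∀ γ : GK K₀, IsFrob v₀ γ →
      (M ℓ' γ⁻¹ : Matrix (Fin r) (Fin r) ℚ_[ℓ']).charpoly = (F v₀).map (Int.castRingHom ℚ_[ℓ'])

/-- `v₀` has degree one, and for every prime `ℓ'` different from the residue characteristic
`p = N v₀`, every Frobenius element `γ` at `v₀` and every embedding `τ` of the field of algebraic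
numbers the Newton polygon of `M ℓ'` has the slopes `H`, and **each direct summand `R` of `M ℓ'`** with
coefficients in `ℚ̄_ℓ'` is ordinary: if the Newton polygons of `R` and of the complement `R'` lie on or
above the polygons with the slopes `H₁` and `H₂` (Mazur's inequality), where `H₁ + H₂ = H`, then the
Newton polygon of `R` has the slopes `H₁`. -/
def AllSummandsOrdinary {K₀ : Type} [Field K₀] [NumberField K₀] {r : ℕ}
    (M : ∀ (ℓ' : ℕ) [Fact ℓ'.Prime], GK K₀ →* Matrix.GeneralLinearGroup (Fin r) ℚ_[ℓ'])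
    (H : Multiset ℕ) (v₀ : HeightOneSpectrum (𝓞 K₀)) : Prop :=
  ∃ (p : ℕ) (_ : Fact p.Prime), Ideal.absNorm v₀.asIdeal = p ∧
    ∀ (ℓ' : ℕ) [Fact ℓ'.Prime], p ≠ ℓ' → ∀ γ : GK K₀, IsFrob v₀ γ →
      ∀ τ : algebraicClosure ℚ (PadicAlgCl ℓ') →+* PadicAlgCl p,
        HasSlopes (cpQ (M ℓ' γ⁻¹)) τ H ∧
        ∀ (r₁ r₂ : ℕ) (R : GK K₀ →* Matrix.GeneralLinearGroup (Fin r₁) (PadicAlgCl ℓ'))
          (R' : GK K₀ →* Matrix.GeneralLinearGroup (Fin r₂) (PadicAlgCl ℓ')) (H₁ H₂ : Multiset ℕ),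
          IsSumOf (M ℓ') R R' → H₁ + H₂ = H → LiesAboveTau (cp (R γ⁻¹)) τ H₁ →
            LiesAboveTau (cp (R' γ⁻¹)) τ H₂ → HasSlopes (cp (R γ⁻¹)) τ H₁

end Pool.Agent.K3h30.OC
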