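import Pool.Agent.K3h30.OC.Main
import Pool.Agent.K3h30.OC.TauDefs

/-! Direct summands of the `ℓ`-adic realisations. -/

set_option autoImplicit false
set_option linter.all false

namespace Pool.Agent.K3h30.OC

open NumberField IsDedekindDomain Polynomial Filter Topology
open Pool.Agent.W401.Cheb Pool.Agent.W528.Ord Pool.Agent.R915.Ord Pool.Agent.W850.Ord

/-- a direct summand of an ordinary realisation is ordinary -/
theorem hasSlopes_part {ℓ p : ℕ} [Fact ℓ.Prime] [Fact p.Prime] (f g h : Polynomial (PadicAlgCl ℓ))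
    (hg : g ≠ 0) (hh : h ≠ 0)
    (τ : algebraicClosure ℚ (PadicAlgCl ℓ) →+* PadicAlgCl p)
    (H H₁ H₂ : Multiset ℕ) (hV : HasSlopes f τ H) (hch : f = g * h)
    (hH : H₁ + H₂ = H) (h1 : LiesAboveTau g τ H₁) (h2 : LiesAboveTau h τ H₂) : HasSlopes g τ H₁ := by
  obtain ⟨e, he, heH⟩ := hV
  obtain ⟨e₁, he₁, hc₁, ha₁⟩ := h1
  obtain ⟨e₂, he₂, hc₂, ha₂⟩ := h2
  refine ⟨e₁, he₁, ?_⟩
  have hinj : Function.Injective (algebraMap (algebraicClosure ℚ (PadicAlgCl ℓ)) (PadicAlgCl ℓ)) :=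
    fun x y h => Subtype.ext h
  have hsum : e = e₁ + e₂ := by
    apply Multiset.map_injective hinj
    rw [he, Multiset.map_add, he₁, he₂, hch, roots_mul (mul_ne_zero hg hh)]
  have hp1 : (0 : ℝ) < p := by exact_mod_cast (Fact.out : p.Prime).pos
  have key := multiset_eq (1 / (p : ℝ)) 1 (by positivity) one_pos (e₁.map fun y => ‖τ y‖)
    (e₂.map fun y => ‖τ y‖) H₁ H₂ (by rw [Multiset.card_map, hc₁])
    (gauss_of_sub _ (by positivity) _ _ (by rw [Multiset.card_map, hc₁]) ?_)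
    (gauss_of_sub _ (by positivity) _ _ (by rw [Multiset.card_map, hc₂]) ?_) ?_
  · exact key
  · intro s hs
    obtain ⟨t, ht, rfl⟩ : ∃ t ≤ e₁, t.map (fun y => ‖τ y‖) = s := le_map _ _ _ hs
    rw [Multiset.card_map]
    exact ha₁ t ht
  · intro s hs
    obtain ⟨t, ht, rfl⟩ : ∃ t ≤ e₂, t.map (fun y => ‖τ y‖) = s := le_map _ _ _ hs
    rw [Multiset.card_map]
    exact ha₂ t ht
  · simp only [one_mul, Multiset.map_id']
    rw [← Multiset.map_add, ← Multiset.map_add, ← hsum, heH, ← hH]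

theorem allSummands_of {K₀ : Type} [Field K₀] [NumberField K₀] {T : Finset ℕ} {r : ℕ}
    {M : ∀ (ℓ' : ℕ) [Fact ℓ'.Prime], GK K₀ →* Matrix.GeneralLinearGroup (Fin r) ℚ_[ℓ']}
    {F : HeightOneSpectrum (𝓞 K₀) → ℤ[X]} {H : Multiset ℕ} (hM : StrictlyCompatible T M F)
    {v₀ : HeightOneSpectrum (𝓞 K₀)} (hv : MultSystem.IsDeg1 T v₀)
    (hN : NewtonSlopes (Ideal.absNorm v₀.asIdeal) (F v₀) H) : AllSummandsOrdinary M H v₀ := by
  have hN' := hN
  obtain ⟨hp, -⟩ := hN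
  refine ⟨Ideal.absNorm v₀.asIdeal, hp, rfl, ?_⟩
  intro ℓ' _ hne γ hγ τ
  have h1 : HasSlopes (cpQ (M ℓ' γ⁻¹)) τ H :=
    newtonTau_of _ τ _ (F v₀) (hM ℓ' v₀ hv hne γ hγ) hN'
  refine ⟨h1, ?_⟩
  intro r₁ r₂ R R' H₁ H₂ hsum hH h2 h3
  exact hasSlopes_part _ _ _ (Matrix.charpoly_monic _).ne_zero (Matrix.charpoly_monic _).ne_zero τ
    H H₁ H₂ h1 (hsum γ⁻¹) hH h2 h3

section main

variable (K₀ : Type) [Field K₀] [NumberField K₀]
    (K : ℕ → Type) [∀ n, Field (K n)] [∀ n, NumberField (K n)] [∀ n, Algebra K₀ (K n)]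
    (ℓ : ℕ → ℕ) [∀ n, Fact (ℓ n).Prime] (ι : ℕ → Type) [∀ n, Fintype (ι n)]
    (A : ∀ n, ι n → MotSystem (K n) (ℓ n)) (χ : ∀ n, GK (K n) →* (PadicAlgCl (ℓ n))ˣ)
    (S : ∀ n, ι n → Finset ℕ) (hA : ∀ n i, (A n i).IsMotive (χ n) (S n i))
    (hγ : ∀ n, ∃ γ : GK (K n), ∀ i, (A n i).Admissible γ)

include hA hγ in
/-- the places for one `n`, and the common set of places -/
theorem main (c : ℝ) (hc : ∀ n, c ≤ MotSystem.admProportion (A n) / (Module.finrank K₀ (K n) : ℝ)) :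
    ∃ P : Set (HeightOneSpectrum (𝓞 K₀)), P.Infinite ∧ c ≤ lowerDensity (fun v₀ => v₀ ∈ P) ∧
      ∀ (T : Finset ℕ) (ν : Type) [Finite ν] (F : ν → HeightOneSpectrum (𝓞 K₀) → ℤ[X])
        (H : ν → Multiset ℕ) (O : HeightOneSpectrum (𝓞 K₀) → Prop),
        (∀ v₀, MultSystem.IsDeg1 T v₀ →
          (∀ i, NewtonSlopes (Ideal.absNorm v₀.asIdeal) (F i v₀) (H i)) → O v₀) →
        (∀ n, (∀ i, IsGenerated (A n) T (F i) (H i)) →
          0 < MotSystem.admProportion (A n) / (Module.finrank K₀ (K n) : ℝ) ∧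
          MotSystem.admProportion (A n) / (Module.finrank K₀ (K n) : ℝ) ≤ lowerDensity O) ∧
        ((∀ i, ∀ᶠ n in atTop, IsGenerated (A n) T (F i) (H i)) → {v₀ ∈ P | ¬ O v₀}.Finite) := by
  have hd : ∀ n, (0 : ℝ) < (Module.finrank K₀ (K n) : ℝ) := fun n => by
    have : FiniteDimensional K₀ (K n) := Module.Finite.of_restrictScalars_finite ℚ K₀ (K n)
    exact_mod_cast Module.finrank_pos
  have hpos : ∀ n, 0 < MotSystem.admProportion (A n) / (Module.finrank K₀ (K n) : ℝ) :=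
    fun n => div_pos (MotSystem.admProportion_pos (A n) (hγ n)) (hd n)
  have hlow := fun n => lower_below (K₀ := K₀) (A n) (χ n) (S n) (hA n)
  obtain ⟨P, hinf, hdens, hfin⟩ := diagonal (fun n => Below K₀ (A n) (S n))
    (fun n => lt_of_lt_of_le (hpos n) (hlow n)) c (fun n => (hc n).trans (hlow n))
  have hord : ∀ (T : Finset ℕ) (F : HeightOneSpectrum (𝓞 K₀) → ℤ[X]) (H : Multiset ℕ),
      ∀ n, IsGenerated (A n) T F H → ∀ v₀, Below K₀ (A n) (S n) v₀ → Ideal.absNorm v₀.asIdeal ∉ T →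
        MultSystem.IsDeg1 T v₀ ∧ NewtonSlopes (Ideal.absNorm v₀.asIdeal) (F v₀) H := by
    intro T F H n hF v₀ hb hT
    refine ⟨⟨?_, hT⟩, newton_of_below (A n) (χ n) (S n) (hA n) hF v₀ hb hT⟩
    obtain ⟨v, h0, hv, -⟩ := hb
    rw [under_norm v hv v₀ h0]
    exact hv
  refine ⟨P, hinf, hdens, fun T ν _ F H O hO => ⟨fun n hF => ⟨hpos n, ?_⟩, fun hF => ?_⟩⟩
  · refine (hlow n).trans (lowerDensity_le_of_finite _ _ T ?_)
    intro v₀ hv₀ hT
    have hv1 : (Ideal.absNorm v₀.asIdeal).Prime := by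
      obtain ⟨v, h0, hv, -⟩ := hv₀
      rw [under_norm v hv v₀ h0]
      exact hv
    exact hO v₀ ⟨hv1, hT⟩ fun i => (hord T (F i) (H i) n (hF i) v₀ hv₀ hT).2
  · obtain ⟨n₀, hn₀⟩ := eventually_atTop.mp (eventually_all.mpr hF)
    refine ((hfin n₀).union (finite_norm_mem (K := K₀) T)).subset ?_
    rintro v₀ ⟨hv, hno⟩
    by_contra hcon
    rw [Set.mem_union, not_or] at hcon
    obtain ⟨h1, h2⟩ := hcon
    have h2' : Ideal.absNorm v₀.asIdeal ∉ T := h2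
    obtain ⟨n, hn, hb⟩ : ∃ n, n₀ ≤ n ∧ Below K₀ (A n) (S n) v₀ := by
      by_contra h3
      push Not at h3
      exact h1 ⟨hv, h3⟩
    have hv1 : (Ideal.absNorm v₀.asIdeal).Prime := by
      obtain ⟨v, h0, hv, -⟩ := hb
      rw [under_norm v hv v₀ h0]
      exact hv
    exact hno (hO v₀ ⟨hv1, h2'⟩ fun i => (hord T (F i) (H i) n (hn₀ n hn i) v₀ hb h2').2)

end main

end Pool.Agent.K3h30.OC
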